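import Pool.Agent.MWKP.Stmts

/-!
# Squad MWKP, row WRA: the residues of `WR`, `WT` form a subgroup
-/

set_option autoImplicit false

namespace Pool.Agent.MWKP.H5

open Pool.Agent.Helper14_MV Pool.Agent.Helper2_MV Pool.Agent.MWK
open Pool.Agent.MWKP

theorem pw_add (i j : ℕ) (X : List ℕ) : pw (i + j) X = pw i X ++ pw j X := by
  unfold pw
  rw [List.replicate_add, List.flatten_append]

theorem pw_zero (X : List ℕ) : pw 0 X = [] := rfl

theorem count_pw (i : ℕ) (X : List ℕ) (l : ℕ) : (pw i X).count l = i * X.count l := by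
  induction i with
  | zero => simp [pw_zero]
  | succ i ih =>
    rw [pw_add, List.count_append, ih]
    have h : pw 1 X = X := by simp [pw]
    rw [h]
    ring

theorem mem_pw {i : ℕ} {X : List ℕ} {l : ℕ} (h : l ∈ pw i X) : l ∈ X := by
  unfold pw at h
  rw [List.mem_flatten] at h
  obtain ⟨Y, hY, hl⟩ := h
  rwa [(List.mem_replicate.1 hY).2] at hl

theorem dead_mono {P R : List ℕ} {l : ℕ} (h : 2 ≤ P.count l) : 2 ≤ (P ++ R).count l := by
  rw [List.count_append]
  omega

/-- `Ok` is monotone in the first word, and dead letters may be added to the second -/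
theorem ok_mono : ∀ (qs : List (List ℕ)) (A A' p p' : List ℕ), (∀ l, A.count l ≤ A'.count l) →
    (∀ z ∈ p', z ∈ p ∨ 2 ≤ A'.count z) → Ok A p qs → Ok A' p' qs
  | [], _, _, _, _, _, _, _ => trivial
  | q :: qs, A, A', p, p', hA, hp, h => by
    refine ⟨fun z hz => ?_, ok_mono qs (A ++ q) (A' ++ q) q q (fun l => ?_)
      (fun z hz => Or.inl hz) h.2⟩
    · rcases hp z hz with h1 | h1
      · have h2 := h.1 z h1
        have h3 := hA z
        rw [List.count_append] at h2 ⊢
        omega
      · exact dead_mono h1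
    · have h3 := hA l
      rw [List.count_append, List.count_append]
      omega

theorem wr_add {θ : FIC} {k i j : ℕ} (hi : WR k i θ) (hj : WR k j θ) : WR k (i + j) θ := by
  intro P X C qs R hX hl hok
  have h1 := hj (P ++ pw i X) X C qs R (fun l hl => dead_mono (hX l hl)) hl
    (ok_mono qs _ _ _ _ (fun l => by
      rw [List.count_append, List.count_append, List.count_append]; omega)
      (fun z hz => Or.inl hz) hok)
  have h2 := hi P X (C ++ pw j X) qs R hX hl
    (ok_mono qs _ _ _ _ (fun l => by
      rw [List.count_append, List.count_append, List.count_append]; omega)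
      (fun z hz => by
        rcases List.mem_append.1 hz with h3 | h3
        · exact Or.inl h3
        · exact Or.inr (dead_mono (hX z (mem_pw h3)))) hok)
  have e1 : P ++ pw (i + j) X ++ C ++ qs.flatten ++ R =
      P ++ pw i X ++ pw j X ++ C ++ qs.flatten ++ R := by
    rw [pw_add]; simp
  have e2 : P ++ pw i X ++ (C ++ pw j X) ++ qs.flatten ++ R =
      P ++ pw i X ++ C ++ pw j X ++ qs.flatten ++ R := by simp
  have e3 : P ++ (C ++ pw j X) ++ pw i X ++ qs.flatten ++ R =
      P ++ C ++ pw (i + j) X ++ qs.flatten ++ R := by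
    rw [Nat.add_comm i j, pw_add]; simp
  rw [e2, e3] at h2
  rw [e1]
  exact θ.trans h1 h2

theorem wt_add {θ : FIC} {i j : ℕ} (hi : WT i θ) (hj : WT j θ) : WT (i + j) θ := by
  intro P X Q hX
  have h1 := hi P X (pw j X ++ Q) hX
  have h2 := hj P X Q hX
  have e1 : P ++ pw (i + j) X ++ Q = P ++ pw i X ++ (pw j X ++ Q) := by
    rw [pw_add]; simp
  have e2 : P ++ pw j X ++ Q = P ++ (pw j X ++ Q) := by simp
  rw [e2] at h2
  rw [e1]
  exact θ.trans h1 h2

/-- **WRA** -/
theorem wra (hkdd : KddStmt) : WraStmt := by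
  intro n θ hθ
  refine ⟨fun k i j => wr_add, ?_, ?_, fun i j => wt_add, ?_, ?_⟩
  · intro k i j hij h P X C qs R hX hl hok
    have h1 := hkdd n θ hθ P (pw j X) (pw i X) (C ++ qs.flatten ++ R)
      (fun l hl => hX l (mem_pw hl)) (fun l hl => hX l (mem_pw hl))
      (fun l => by rw [count_pw, count_pw]; exact (hij.symm.mul_right _))
    have h2 := h P X C qs R hX hl hok
    have h3 := hkdd n θ hθ (P ++ C) (pw i X) (pw j X) (qs.flatten ++ R)
      (fun l hl => dead_mono (hX l (mem_pw hl))) (fun l hl => dead_mono (hX l (mem_pw hl)))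
      (fun l => by rw [count_pw, count_pw]; exact (hij.mul_right _))
    have e1 : ∀ m, P ++ pw m X ++ (C ++ qs.flatten ++ R) =
        P ++ pw m X ++ C ++ qs.flatten ++ R := fun m => by simp
    have e2 : ∀ m, P ++ C ++ pw m X ++ (qs.flatten ++ R) =
        P ++ C ++ pw m X ++ qs.flatten ++ R := fun m => by simp
    rw [e1, e1] at h1
    rw [e2, e2] at h3
    exact θ.trans (θ.trans h1 h2) h3
  · intro k i j h
    induction i with
    | zero =>
      intro P X C qs R _ _ _
      rw [Nat.zero_mul, pw_zero, List.append_nil, List.append_nil]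
      exact RR.refl _
    | succ i ih =>
      rw [Nat.succ_mul]
      exact wr_add ih h
  · intro i j hij h P X Q hX
    have h1 := hkdd n θ hθ P (pw j X) (pw i X) Q
      (fun l hl => hX l (mem_pw hl)) (fun l hl => hX l (mem_pw hl))
      (fun l => by rw [count_pw, count_pw]; exact (hij.symm.mul_right _))
    exact θ.trans h1 (h P X Q hX)
  · intro i j h
    induction i with
    | zero =>
      intro P X Q _
      rw [Nat.zero_mul, pw_zero, List.append_nil]
      exact RR.refl _
    | succ i ih =>
      rw [Nat.succ_mul]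
      exact wt_add ih h

end Pool.Agent.MWKP.H5
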